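import Pool.Agent.H39.Newt2.Base

/-! # Project NEWTON2, module ZFM: the zeta function in terms of the universal series -/

set_option autoImplicit false

namespace Pool.Newt2

open MvPolynomial Pool.Agent.H39.MonoR Pool.Agent.H75.Mono Pool.Newt

section ZFM

variable {k : Type} [Field k] [Algebra k ℂ] {σ I : Type} [Fintype σ] [Fintype I]

omit [Algebra k ℂ] in
open Classical in
theorem ZFM_fpoly (a : I → σ → ℕ) (c : I → k) (u : σ → ℕ) (τ : Finset I)
    (h : face a u = (τ : Set I)) : fpoly a c u = tpoly a c τ := by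
  unfold fpoly tpoly
  rw [← Finset.sum_filter]
  refine Finset.sum_congr ?_ fun _ _ => rfl
  ext i
  simp [h]

/-- a variable with `u_j > N(u)` does not occur on the face -/
theorem ZFM_free [Nonempty I] (a : I → σ → ℕ) (u : σ → ℕ) (d : ℕ) (hd : Nw a u ≤ d)
    (τ : Finset I) (h : face a u = (τ : Set I)) :
    ∀ j ∈ cpd (d + 1) u, ∀ i ∈ τ, a i j = 0 := by
  intro j hj i hi
  have h1 : d + 1 ≤ u j := (Finset.mem_filter.1 hj).2
  have h2 : i ∈ face a u := by rw [h]; exact hi
  have h3 : dot u (a i) = Nw a u := (mem_face_iff a u i).1 h2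
  by_contra h4
  have h5 : u j * a i j ≤ dot u (a i) := Finset.single_le_sum (f := fun j => u j * a i j)
    (fun _ _ => Nat.zero_le _) (Finset.mem_univ j)
  have h6 : u j ≤ u j * a i j := Nat.le_mul_of_pos_right _ (Nat.pos_of_ne_zero h4)
  omega

theorem ZFM_ev_T (x : (M k)ˣ) (n : ℤ) : ev x (LaurentPolynomial.T n) = ((x ^ n : (M k)ˣ) : M k) :=
  LaurentPolynomial.eval₂_T _ _ n

omit [Fintype I] in
open Classical in
/-- the evaluation of the truncated sum at `L` -/
theorem ZFM_ev_Fc (a : I → σ → ℕ) (c : ℕ) (τ : Finset I) (N : ℕ) :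
    ev (Lu k) (Fc a c τ N) =
      ∑ u ∈ (Fintype.piFinset fun _ : σ => Finset.range (c + 1)).filter
          (fun u => face a u = (τ : Set I) ∧ Nw a u = N),
        ((Lu k ^ (((cpd c u).card : ℤ) - ((∑ j, u j : ℕ) : ℤ)) : (M k)ˣ) : M k) *
          ((↑(Lu k) : M k) - 1) ^ (Fintype.card σ - (cpd c u).card - rk a τ) := by
  unfold Fc
  rw [map_sum]
  refine Finset.sum_congr rfl fun u _ => ?_
  rw [map_mul, map_pow, map_sub, ZFM_ev_T, ZFM_ev_T, map_one, zpow_one]

end ZFM

open Classical in
theorem sZfm (hCls : SCls) (hZcp : SZcp) (hEvl : SEvl) : SZfm := by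
  intro k _ _ σ I _ _ _ a c hc hndg
  obtain ⟨C, hC1, hC2, hC3, hC4⟩ := hCls k σ I a c hc
  refine ⟨C, hC2, hC3, hC4, ∑ τ : Finset I,
    (PowerSeries.C (C τ 1) + PowerSeries.C (C τ 0) * ZET_H (Lu k)) *
      PowerSeries.C (ev (Lu k) (Fc a 1 τ 0)), ?_, ?_⟩
  · have hpos : ∀ p ∈ ({((-1 : ℤ), (1 : ℕ))} : Set (ℤ × ℕ)), 0 < p.2 := by
      intro p hp
      rw [Set.mem_singleton_iff] at hp
      rw [hp]
      exact one_pos
    have hH : ZET_H (Lu k) ∈ RS k ({((-1 : ℤ), (1 : ℕ))} : Set (ℤ × ℕ)) := by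
      refine RatF.mem_RS (T := Unit) (F := fun _ => ZET_H (Lu k)) hpos ?_ ()
      refine ⟨{(-1, 1)}, ?_, 2, fun _ m hm => ?_⟩
      · intro p hp
        rw [Multiset.mem_singleton] at hp
        rw [hp]
        exact rfl
      · rw [Multiset.map_singleton, Multiset.prod_singleton, ZET_H_eq, PowerSeries.coeff_C_mul,
          PowerSeries.coeff_X, if_neg (by omega), mul_zero]
    have hCm : ∀ z : M k, PowerSeries.C z ∈ RS k ({((-1 : ℤ), (1 : ℕ))} : Set (ℤ × ℕ)) :=
      fun z => (RS k _).algebraMap_mem z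
    exact sum_mem fun τ _ => mul_mem (add_mem (hCm _) (mul_mem (hCm _) hH)) (hCm _)
  · -- the series with the constant term
    have hFs : ∀ τ : Finset I, PowerSeries.C (ev (Lu k) (Fc a 1 τ 0)) +
        PowerSeries.map (ev (Lu k)) (Fs a τ) =
        PowerSeries.mk fun N => ev (Lu k) (Fc a (N + 1) τ N) := by
      intro τ
      ext N
      rw [map_add, PowerSeries.coeff_map, PowerSeries.coeff_mk, PowerSeries.coeff_C]
      unfold Fs
      rw [PowerSeries.coeff_mk]
      split_ifs with h
      · rw [h, map_zero, add_zero]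
      · rw [zero_add]
    rw [← Finset.sum_add_distrib]
    simp only [← mul_add, hFs]
    ext d
    rw [hZcp k σ I a c hndg d, map_sum]
    -- the value of a term
    have hval : ∀ u ∈ Fintype.piFinset fun _ : σ => Finset.range (d + 2),
        (if Nw a u = d then
          ↑(Lu k ^ (-((∑ j, u j : ℕ) : ℤ))) *
            mo k {z : σ → ℂ | (∀ j, j ∉ cpd (d + 1) u → z j ≠ 0) ∧ aeval z (fpoly a c u) = 1}
        else if Nw a u < d then
          ↑(Lu k ^ (-((∑ j, u j : ℕ) : ℤ) - ((d - Nw a u : ℕ) : ℤ))) *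
            mo k {z : σ → ℂ | (∀ j, j ∉ cpd (d + 1) u → z j ≠ 0) ∧ aeval z (fpoly a c u) = 0}
        else 0) =
        ∑ τ : Finset I, (if face a u = (τ : Set I) then
          (∑ N ∈ Finset.range (d + 1), if Nw a u = N then
            (if N = d then C τ 1 else C τ 0 * ((Lu k ^ (-((d - N : ℕ) : ℤ)) : (M k)ˣ) : M k)) *
            (((Lu k ^ (((cpd (d + 1) u).card : ℤ) - ((∑ j, u j : ℕ) : ℤ)) : (M k)ˣ) : M k) *
          ((↑(Lu k) : M k) - 1) ^ (Fintype.card σ - (cpd (d + 1) u).card - rk a τ))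
            else 0) else 0) := by
      intro u _
      have hτ : ∀ τ : Finset I, face a u = (τ : Set I) ↔ (face a u).toFinset = τ := by
        intro τ
        rw [← Finset.coe_inj, Set.coe_toFinset]
      rw [Finset.sum_eq_single (face a u).toFinset]
      rotate_left
      · intro τ _ h
        rw [if_neg]
        rw [hτ]
        exact fun h' => h h'.symm
      · intro h
        exact absurd (Finset.mem_univ _) h
      rw [if_pos ((hτ _).2 rfl), Finset.sum_ite_eq]
      set τ := (face a u).toFinset with hτdef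
      have hfτ : face a u = (τ : Set I) := (hτ _).2 rfl
      have hfp := ZFM_fpoly a c u τ hfτ
      by_cases h1 : Nw a u ≤ d
      · rw [if_pos (Finset.mem_range.2 (by omega))]
        have hfree := ZFM_free a u d h1 τ hfτ
        have hpow : ((Lu k ^ (((cpd (d + 1) u).card : ℤ) - ((∑ j, u j : ℕ) : ℤ)) : (M k)ˣ) : M k) =
            (↑(Lu k) : M k) ^ (cpd (d + 1) u).card *
              ((Lu k ^ (-((∑ j, u j : ℕ) : ℤ)) : (M k)ˣ) : M k) := by
          rw [sub_eq_add_neg, zpow_add, Units.val_mul, zpow_natCast, Units.val_pow_eq_pow_val]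
        rw [hpow]
        by_cases h2 : Nw a u = d
        · rw [if_pos h2, if_pos h2]
          have h3 := (hC1 τ (cpd (d + 1) u) 1 hfree).2
          rw [map_one] at h3
          rw [hfp, h3]
          ring
        · rw [if_neg h2, if_pos (lt_of_le_of_ne h1 h2), if_neg h2]
          have h3 := (hC1 τ (cpd (d + 1) u) 0 hfree).2
          rw [map_zero] at h3
          rw [hfp, h3, sub_eq_add_neg, zpow_add, Units.val_mul]
          ring
      · rw [if_neg (by omega), if_neg (by omega), if_neg (by rw [Finset.mem_range]; omega)]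
    rw [Finset.sum_congr rfl hval, Finset.sum_comm]
    refine Finset.sum_congr rfl fun τ _ => ?_
    -- the sum over the weights with face `τ`
    have hsum : ∑ u ∈ Fintype.piFinset fun _ : σ => Finset.range (d + 2),
        (if face a u = (τ : Set I) then
          (∑ N ∈ Finset.range (d + 1), if Nw a u = N then
            (if N = d then C τ 1 else C τ 0 * ((Lu k ^ (-((d - N : ℕ) : ℤ)) : (M k)ˣ) : M k)) *
            (((Lu k ^ (((cpd (d + 1) u).card : ℤ) - ((∑ j, u j : ℕ) : ℤ)) : (M k)ˣ) : M k) *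
          ((↑(Lu k) : M k) - 1) ^ (Fintype.card σ - (cpd (d + 1) u).card - rk a τ))
            else 0) else 0) =
        ∑ N ∈ Finset.range (d + 1),
          (if N = d then C τ 1 else C τ 0 * ((Lu k ^ (-((d - N : ℕ) : ℤ)) : (M k)ˣ) : M k)) *
            ev (Lu k) (Fc a (d + 1) τ N) := by
      have h1 : ∀ u : σ → ℕ, (if face a u = (τ : Set I) then
          (∑ N ∈ Finset.range (d + 1), if Nw a u = N then
            (if N = d then C τ 1 else C τ 0 * ((Lu k ^ (-((d - N : ℕ) : ℤ)) : (M k)ˣ) : M k)) *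
            (((Lu k ^ (((cpd (d + 1) u).card : ℤ) - ((∑ j, u j : ℕ) : ℤ)) : (M k)ˣ) : M k) *
          ((↑(Lu k) : M k) - 1) ^ (Fintype.card σ - (cpd (d + 1) u).card - rk a τ))
            else 0) else 0) =
          ∑ N ∈ Finset.range (d + 1), if face a u = (τ : Set I) ∧ Nw a u = N then
            (if N = d then C τ 1 else C τ 0 * ((Lu k ^ (-((d - N : ℕ) : ℤ)) : (M k)ˣ) : M k)) *
            (((Lu k ^ (((cpd (d + 1) u).card : ℤ) - ((∑ j, u j : ℕ) : ℤ)) : (M k)ˣ) : M k) *
          ((↑(Lu k) : M k) - 1) ^ (Fintype.card σ - (cpd (d + 1) u).card - rk a τ))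
            else 0 := by
        intro u
        split_ifs with h
        · refine Finset.sum_congr rfl fun N _ => ?_
          simp [h]
        · symm
          refine Finset.sum_eq_zero fun N _ => ?_
          rw [if_neg]
          exact fun h' => h h'.1
      rw [Finset.sum_congr rfl fun u _ => h1 u, Finset.sum_comm]
      refine Finset.sum_congr rfl fun N _ => ?_
      rw [← Finset.sum_filter, ZFM_ev_Fc]
      exact ZET_mul_sum _ _ _
    rw [hsum]
    -- remove the truncation
    have hcap : ∀ N ∈ Finset.range (d + 1),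
        (if N = d then C τ 1 else C τ 0 * ((Lu k ^ (-((d - N : ℕ) : ℤ)) : (M k)ˣ) : M k)) *
            ev (Lu k) (Fc a (d + 1) τ N) =
        (if N = d then C τ 1 else C τ 0 * ((Lu k ^ (-((d - N : ℕ) : ℤ)) : (M k)ˣ) : M k)) *
            ev (Lu k) (Fc a (N + 1) τ N) := by
      intro N hN
      rw [(hEvl σ I a τ N (d + 1) (Finset.mem_range.1 hN)).2]
    rw [Finset.sum_congr rfl hcap, add_mul, map_add, PowerSeries.coeff_C_mul,
      PowerSeries.coeff_mk, mul_assoc, PowerSeries.coeff_C_mul, mul_comm (ZET_H (Lu k)),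
      PowerSeries.coeff_mul, Finset.Nat.sum_antidiagonal_eq_sum_range_succ
      (fun i j => PowerSeries.coeff i (PowerSeries.mk fun N => ev (Lu k) (Fc a (N + 1) τ N)) *
        PowerSeries.coeff j (ZET_H (Lu k))), Finset.sum_range_succ, if_pos rfl,
      Finset.sum_range_succ, Nat.sub_self]
    have h0 : PowerSeries.coeff 0 (ZET_H (Lu k)) = 0 := by
      unfold ZET_H
      rw [PowerSeries.coeff_mk, if_pos rfl]
    rw [h0, mul_zero, add_zero, add_comm, ← ZET_mul_sum]
    congr 1
    refine Finset.sum_congr rfl fun N hN => ?_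
    have hN' := Finset.mem_range.1 hN
    unfold ZET_H
    rw [if_neg (by omega), PowerSeries.coeff_mk, PowerSeries.coeff_mk, if_neg (by omega)]
    ring

end Pool.Newt2
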